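import Pool.Agent.Helper57.QZ.Stmts2
import Pool.Agent.Helper68.QZ.MI

/-!
# The Mellin transform of `gX`
-/

set_option autoImplicit false

namespace Pool.Agent.Helper57.QZ

open MeasureTheory Set Filter Topology

theorem xm_bX_le (X n : ℕ) : |bX X n| ≤ X := by
  unfold bX
  calc |∑ d ∈ n.divisors.filter (fun d => d ≤ X), ((ArithmeticFunction.moebius d : ℤ) : ℝ)|
      ≤ ∑ d ∈ n.divisors.filter (fun d => d ≤ X), |((ArithmeticFunction.moebius d : ℤ) : ℝ)| :=
        Finset.abs_sum_le_sum_abs _ _
    _ ≤ ∑ d ∈ n.divisors.filter (fun d => d ≤ X), (1 : ℝ) := by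
        apply Finset.sum_le_sum
        intro d _
        have := ArithmeticFunction.abs_moebius_le_one (n := d)
        exact_mod_cast this
    _ ≤ ∑ d ∈ Finset.Icc 1 X, (1 : ℝ) := by
        apply Finset.sum_le_sum_of_subset_of_nonneg
        · intro d hd
          rw [Finset.mem_filter] at hd
          rw [Finset.mem_Icc]
          exact ⟨Nat.pos_of_mem_divisors hd.1, hd.2⟩
        · intro i _ _
          exact zero_le_one
    _ = X := by simp

theorem xm_NX_eq_sum (X : ℕ) (x : ℝ) (hx : 0 ≤ x) (M : ℕ) (hM : ⌊x⌋₊ ≤ M) :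
    NX X x = ∑ n ∈ Finset.Icc 2 M, bX X n * if (n : ℝ) ≤ x then (1:ℝ) else 0 := by
  unfold NX
  have e : Finset.Icc 2 ⌊x⌋₊ = (Finset.Icc 2 M).filter (fun n : ℕ => (n : ℝ) ≤ x) := by
    apply Finset.ext
    intro n
    simp only [Finset.mem_filter, Finset.mem_Icc]
    constructor
    · rintro ⟨h1, h2⟩
      exact ⟨⟨h1, h2.trans hM⟩, (Nat.le_floor_iff hx).1 h2⟩
    · rintro ⟨⟨h1, h2⟩, h4⟩
      exact ⟨h1, (Nat.le_floor_iff hx).2 h4⟩
  rw [e, Finset.sum_filter]
  apply Finset.sum_congr rfl
  intro n _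
  split_ifs <;> simp

theorem xm_gX_eq_sum (X : ℕ) (x : ℝ) (hx : 0 < x) :
    gX X x = ∑ n ∈ Finset.Icc 2 ⌊x⌋₊, bX X n * (2 * n / x - 1) := by
  unfold gX
  have h1 : ∫ u in (0:ℝ)..x, NX X u =
      ∑ n ∈ Finset.Icc 2 ⌊x⌋₊, bX X n * (x - n) := by
    have e : ∫ u in (0:ℝ)..x, NX X u = ∫ u in (0:ℝ)..x,
        ∑ n ∈ Finset.Icc 2 ⌊x⌋₊, bX X n * (if (n : ℝ) ≤ u then (1:ℝ) else 0) := by
      apply intervalIntegral.integral_congr
      intro u hu
      rw [uIcc_of_le hx.le] at hu
      exact xm_NX_eq_sum X u hu.1 _ (Nat.floor_mono hu.2)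
    rw [e, intervalIntegral.integral_finsetSum
      (fun n _ => (int_ind_integrable _ _).const_mul _)]
    apply Finset.sum_congr rfl
    intro n hn
    simp only [Finset.mem_Icc] at hn
    rw [intervalIntegral.integral_const_mul]
    congr 1
    apply int_ind
    · have : 0 < n := by omega
      exact_mod_cast this
    · exact (Nat.le_floor_iff hx.le).1 hn.2
  rw [h1, xm_NX_eq_sum X x hx.le _ le_rfl, Finset.mul_sum, ← Finset.sum_sub_distrib]
  apply Finset.sum_congr rfl
  intro n hn
  simp only [Finset.mem_Icc] at hn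
  rw [if_pos ((Nat.le_floor_iff hx.le).1 hn.2)]
  field_simp
  ring

/-- the term of the series -/
noncomputable def xmF (X : ℕ) (s : ℂ) (n : ℕ) (u : ℝ) : ℂ :=
  if 2 ≤ n then (bX X n : ℂ) * (Ici (Real.log n)).indicator
    (fun u : ℝ => (2 * n * Complex.exp (-(u:ℂ)) - 1) * Complex.exp (-(s * u))) u else 0

theorem xmF_int (X : ℕ) (s : ℂ) (hs : 0 < s.re) (n : ℕ) : Integrable (xmF X s n) := by
  unfold xmF
  by_cases h : 2 ≤ n
  · simp only [h, if_true]
    rw [Ft_eq]
    apply Integrable.const_mul
    rw [integrable_indicator_iff measurableSet_Ici, integrableOn_Ici_iff_integrableOn_Ioi]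
    exact ((integrableOn_exp_mul_complex_Ioi (by simp; linarith) _).const_mul _).sub
      (integrableOn_exp_mul_complex_Ioi (by simpa using hs) _)
  · simp only [h, if_false]
    exact integrable_zero _ _ _

theorem xmF_val (X : ℕ) (s : ℂ) (hs : 0 < s.re) (n : ℕ) : ∫ u, xmF X s n u =
    (if 2 ≤ n then (bX X n : ℂ) * (n : ℂ) ^ (-s) else 0) *
      ((s - 1) / (s * (s + 1))) := by
  unfold xmF
  by_cases h : 2 ≤ n
  · have hn : (n : ℂ) ≠ 0 := by
      have : n ≠ 0 := by omega
      exact_mod_cast this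
    have hs0 : s ≠ 0 := by intro e; rw [e] at hs; simp at hs
    have hs1 : s + 1 ≠ 0 := by
      intro e
      have := congrArg Complex.re e
      simp at this
      linarith
    simp only [h, if_true]
    rw [integral_const_mul, Ft_eq, integral_indicator measurableSet_Ici,
      integral_Ici_eq_integral_Ioi,
      integral_sub, integral_const_mul, integral_exp_mul_complex_Ioi (by simp; linarith),
      integral_exp_mul_complex_Ioi (by simpa using hs)]
    · have e1 : Complex.exp (-(s + 1) * (Real.log n : ℂ)) = (n:ℂ) ^ (-s) / n := by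
        have e3 : (n:ℂ) ^ (-s) / n = Complex.exp (Complex.log n * -s) /
            Complex.exp (Complex.log n) := by
          rw [Complex.cpow_def_of_ne_zero hn, Complex.exp_log hn]
        rw [e3, ← Complex.exp_sub, ← Complex.natCast_log]
        congr 1
        ring
      have e2 : Complex.exp (-s * (Real.log n : ℂ)) = (n:ℂ) ^ (-s) := by
        rw [Complex.cpow_def_of_ne_zero hn, ← Complex.natCast_log]
        congr 1
        ring
      rw [e1, e2]
      field_simp
      ring
    · exact (integrableOn_exp_mul_complex_Ioi (by simp; linarith) _).const_mul _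
    · exact integrableOn_exp_mul_complex_Ioi (by simpa using hs) _
  · simp only [h, if_false]
    simp

theorem xmF_norm_int (X : ℕ) (s : ℂ) (hs : 0 < s.re) (n : ℕ) :
    ∫ u, ‖xmF X s n u‖ ≤ X * ((n : ℝ) ^ (-s.re) * (1 / s.re)) := by
  by_cases h : 2 ≤ n
  · have hn : (0 : ℝ) < n := by
      have : 0 < n := by omega
      exact_mod_cast this
    have hle : ∀ u : ℝ, ‖xmF X s n u‖ ≤
        X * (Ici (Real.log n)).indicator (fun u : ℝ => Real.exp (-s.re * u)) u := by
      intro u
      unfold xmF
      rw [if_pos h, norm_mul]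
      have hb : ‖(bX X n : ℂ)‖ ≤ X := by
        rw [Complex.norm_real, Real.norm_eq_abs]
        exact xm_bX_le X n
      apply mul_le_mul hb _ (norm_nonneg _) (Nat.cast_nonneg _)
      by_cases hu : u ∈ Ici (Real.log n)
      · rw [indicator_of_mem hu, indicator_of_mem hu, norm_mul, Complex.norm_exp]
        have e1 : (-(s * (u:ℂ))).re = -s.re * u := by simp
        rw [e1]
        have e2 : (2 * n * Complex.exp (-(u:ℂ)) - 1) =
            (((2 * n * Real.exp (-u) - 1 : ℝ)) : ℂ) := by push_cast; ring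
        rw [e2, Complex.norm_real, Real.norm_eq_abs]
        have h1 : (n : ℝ) * Real.exp (-u) ≤ 1 := by
          rw [Real.exp_neg, ← div_eq_mul_inv, div_le_one (Real.exp_pos _)]
          calc (n : ℝ) = Real.exp (Real.log n) := (Real.exp_log hn).symm
            _ ≤ Real.exp u := Real.exp_le_exp.2 hu
        have h2 : 0 < (n : ℝ) * Real.exp (-u) := by positivity
        have h3 : |2 * (n:ℝ) * Real.exp (-u) - 1| ≤ 1 := by
          rw [abs_le]; constructor <;> nlinarith
        calc _ ≤ 1 * Real.exp (-s.re * u) :=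
              mul_le_mul_of_nonneg_right h3 (Real.exp_pos _).le
          _ = _ := one_mul _
      · rw [indicator_of_notMem hu, indicator_of_notMem hu, norm_zero]
    have hi : Integrable ((Ici (Real.log n)).indicator (fun u : ℝ => Real.exp (-s.re * u))) := by
      rw [integrable_indicator_iff measurableSet_Ici, integrableOn_Ici_iff_integrableOn_Ioi]
      exact integrableOn_exp_mul_Ioi (by linarith) _
    calc ∫ u, ‖xmF X s n u‖ ≤ ∫ u, X * (Ici (Real.log n)).indicator
          (fun u : ℝ => Real.exp (-s.re * u)) u :=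
          integral_mono (xmF_int X s hs n).norm (hi.const_mul _) hle
      _ = X * ((n : ℝ) ^ (-s.re) * (1 / s.re)) := by
          rw [integral_const_mul, integral_indicator measurableSet_Ici,
            integral_Ici_eq_integral_Ioi,
            integral_exp_mul_Ioi (by linarith), Real.rpow_def_of_pos hn]
          rw [mul_comm (-s.re) (Real.log n)]
          field_simp
  · have : ∀ u, xmF X s n u = 0 := by intro u; unfold xmF; rw [if_neg h]
    simp only [this, norm_zero, integral_zero]
    positivity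

theorem xmF_tsum (X : ℕ) (s : ℂ) (u : ℝ) :
    ∑' n, xmF X s n u = (gX X (Real.exp u) : ℂ) * Complex.exp (-(s * u)) := by
  have h0 : ∀ n ∉ Finset.Icc 2 ⌊Real.exp u⌋₊, xmF X s n u = 0 := by
    intro n hn
    unfold xmF
    by_cases h : 2 ≤ n
    · rw [if_pos h, indicator_of_notMem, mul_zero]
      intro hu
      apply hn
      rw [Finset.mem_Icc]
      refine ⟨h, ?_⟩
      rw [Nat.le_floor_iff (Real.exp_pos _).le]
      have hn : (0 : ℝ) < n := by
        have : 0 < n := by omega
        exact_mod_cast this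
      calc (n : ℝ) = Real.exp (Real.log n) := (Real.exp_log hn).symm
        _ ≤ Real.exp u := Real.exp_le_exp.2 hu
    · rw [if_neg h]
  rw [tsum_eq_sum h0, xm_gX_eq_sum X _ (Real.exp_pos _)]
  push_cast
  rw [Finset.sum_mul]
  apply Finset.sum_congr rfl
  intro n hn
  rw [Finset.mem_Icc, Nat.le_floor_iff (Real.exp_pos _).le] at hn
  have hn0 : (0 : ℝ) < n := by
    have : 0 < n := by omega
    exact_mod_cast this
  unfold xmF
  rw [if_pos hn.1, indicator_of_mem]
  · rw [Complex.exp_neg (u:ℂ)]
    ring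
  · show Real.log n ≤ u
    rw [Real.log_le_iff_le_exp hn0]
    exact hn.2

theorem xm_right (h1 : ST_XE) (X : ℕ) (hX : 1 ≤ X) (s : ℂ) (hs : 1 < s.re) :
    ∫ u : ℝ, (gX X (Real.exp u) : ℂ) * Complex.exp (-(s * u)) =
      FX X s * ((s - 1) / (s * (s + 1))) := by
  have hs0 : 0 < s.re := by linarith
  have hsum : Summable fun n => ∫ u, ‖xmF X s n u‖ := by
    refine Summable.of_nonneg_of_le (fun n => integral_nonneg fun u => norm_nonneg _)
      (xmF_norm_int X s hs0) ?_
    exact ((Real.summable_nat_rpow.2 (by linarith)).mul_right _).mul_left _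
  have h := hasSum_integral_of_summable_integral_norm (xmF_int X s hs0) hsum
  simp only [xmF_tsum, xmF_val X s hs0] at h
  exact h.unique ((h1 X s hX hs).1.mul_right _)

theorem xm_diff (h2 : ST_XB) (X : ℕ) (hX : 1 ≤ X) : DifferentiableOn ℂ
    (fun s : ℂ => ∫ u : ℝ, (gX X (Real.exp u) : ℂ) * Complex.exp (-(s * u)))
    {s : ℂ | 0 < s.re} := by
  obtain ⟨hB, hm, hz⟩ := h2 X hX
  set B : ℝ := 10 * X with hBd
  have hB0 : 0 ≤ B := (abs_nonneg _).trans (hB 1 one_pos)
  intro s₀ hs₀
  have hs₀' : 0 < s₀.re := hs₀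
  apply DifferentiableAt.differentiableWithinAt
  have hmz : Measurable (fun u : ℝ => (gX X (Real.exp u) : ℂ)) := Complex.measurable_ofReal.comp hm
  have hz' : ∀ u : ℝ, u ≤ 0 → gX X (Real.exp u) = 0 := by
    intro u hu
    apply hz _ (Real.exp_pos _)
    have : Real.exp u ≤ 1 := Real.exp_le_one_iff.2 hu
    linarith
  set c : ℝ := s₀.re / 2 with hc
  have hc0 : 0 < c := by positivity
  have hS : {s : ℂ | c < s.re} ∈ 𝓝 s₀ :=
    (isOpen_lt continuous_const Complex.continuous_re).mem_nhds (by
      show s₀.re / 2 < s₀.re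
      linarith)
  have hmeas : ∀ s : ℂ, AEStronglyMeasurable
      (fun u : ℝ => (gX X (Real.exp u) : ℂ) * Complex.exp (-(s * u))) volume := by
    intro s
    apply Measurable.aestronglyMeasurable
    exact hmz.mul (by fun_prop)
  refine (hasDerivAt_integral_of_dominated_loc_of_deriv_le (μ := volume)
    (F := fun (s : ℂ) (u : ℝ) => (gX X (Real.exp u) : ℂ) * Complex.exp (-(s * u)))
    (F' := fun (s : ℂ) (u : ℝ) => (gX X (Real.exp u) : ℂ) * (Complex.exp (-(s * u)) * (-u)))
    (bound := (Ioi (0:ℝ)).indicator (fun u => B * (u ^ (1:ℝ) * Real.exp (-c * u ^ (1:ℝ)))))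
    hS (Eventually.of_forall hmeas) ?_ ?_ ?_ ?_ ?_).2.differentiableAt
  · have hi : Integrable ((Ioi (0:ℝ)).indicator (fun u => B * Real.exp (-s₀.re * u))) := by
      rw [integrable_indicator_iff measurableSet_Ioi]
      exact (integrableOn_exp_mul_Ioi (by linarith) _).const_mul _
    refine hi.mono' (hmeas s₀) (Eventually.of_forall fun u => ?_)
    by_cases hu : u ∈ Ioi (0:ℝ)
    · rw [indicator_of_mem hu, norm_mul, Complex.norm_exp, Complex.norm_real, Real.norm_eq_abs]
      have e1 : (-(s₀ * (u:ℂ))).re = -s₀.re * u := by simp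
      rw [e1]
      exact mul_le_mul_of_nonneg_right (hB _ (Real.exp_pos _)) (Real.exp_pos _).le
    · rw [indicator_of_notMem hu, hz' u (not_lt.1 hu)]
      simp
  · apply Measurable.aestronglyMeasurable
    exact hmz.mul (by fun_prop)
  · refine Eventually.of_forall fun u s hs => ?_
    by_cases hu : u ∈ Ioi (0:ℝ)
    · have hu0 : 0 < u := hu
      rw [indicator_of_mem hu, norm_mul, norm_mul, Complex.norm_exp, Complex.norm_real,
        Real.norm_eq_abs, norm_neg, Complex.norm_real, Real.norm_eq_abs, abs_of_pos hu0]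
      have e1 : (-(s * (u:ℂ))).re = -s.re * u := by simp
      rw [e1, Real.rpow_one, mul_comm (Real.exp _) u]
      have hs' : c < s.re := hs
      have e2 : Real.exp (-s.re * u) ≤ Real.exp (-c * u) := by
        apply Real.exp_le_exp.2
        nlinarith
      have e3 := hB _ (Real.exp_pos u)
      gcongr
    · rw [indicator_of_notMem hu, hz' u (not_lt.1 hu)]
      simp
  · rw [integrable_indicator_iff measurableSet_Ioi]
    exact (integrableOn_rpow_mul_exp_neg_mul_rpow (by norm_num) one_pos hc0).const_mul _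
  · refine Eventually.of_forall fun u s hs => ?_
    apply HasDerivAt.const_mul
    have : HasDerivAt (fun s : ℂ => -(s * u)) (-(1 * (u:ℂ))) s :=
      ((hasDerivAt_id s).mul_const _).neg
    rw [one_mul] at this
    exact this.cexp

theorem xm_MX_diff (X : ℕ) : Differentiable ℂ (MX X) := by
  unfold MX
  intro s
  apply DifferentiableAt.fun_sum
  intro n hn
  rw [Finset.mem_Icc] at hn
  have hn0 : (n : ℂ) ≠ 0 := by
    have : n ≠ 0 := by omega
    exact_mod_cast this
  exact (differentiable_neg.const_cpow (Or.inl hn0) s).const_mul _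

theorem xm_of (hXE : ST_XE) (hXB : ST_XB) : ST_XM := by
  intro X s hX hs hs1
  set R : ℂ → ℂ := fun s => (Hz s * MX X s - (s - 1)) / (s * (s + 1)) with hR
  set L : ℂ → ℂ := fun s : ℂ => ∫ u : ℝ, (gX X (Real.exp u) : ℂ) * Complex.exp (-(s * u)) with hL
  have hRF : ∀ z : ℂ, z ≠ 1 → R z = FX X z * (z - 1) / (z * (z + 1)) := by
    intro z hz
    rw [hR]
    dsimp only
    unfold Hz FX
    rw [Function.update_of_ne hz]
    ring
  have hU : IsOpen {s : ℂ | 0 < s.re} := isOpen_lt continuous_const Complex.continuous_re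
  have hRd : DifferentiableOn ℂ R {s : ℂ | 0 < s.re} := by
    intro z hz
    have hz' : 0 < z.re := hz
    apply DifferentiableAt.differentiableWithinAt
    refine DifferentiableAt.div ?_ ?_ ?_
    · exact ((Hz_diff z).mul (xm_MX_diff X z)).sub (differentiableAt_id.sub_const _)
    · exact differentiableAt_id.mul (differentiableAt_id.add_const _)
    · apply mul_ne_zero
      · intro e; rw [e] at hz'; simp at hz'
      · intro e
        have := congrArg Complex.re e
        simp at this
        linarith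
  have hpre : IsPreconnected {s : ℂ | 0 < s.re} :=
    (convex_halfSpace_re_gt 0).isPreconnected
  have heq : L =ᶠ[𝓝 (2:ℂ)] R := by
    have : {s : ℂ | 1 < s.re} ∈ 𝓝 (2:ℂ) :=
      (isOpen_lt continuous_const Complex.continuous_re).mem_nhds (by simp)
    filter_upwards [this] with z hz
    have hz' : 1 < z.re := hz
    have hz1 : z ≠ 1 := by intro e; rw [e] at hz'; simp at hz'
    rw [hRF z hz1, hL]
    dsimp only
    rw [xm_right hXE X hX z hz', mul_div_assoc]
  have key := AnalyticOnNhd.eqOn_of_preconnected_of_eventuallyEq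
    ((xm_diff hXB X hX).analyticOnNhd hU) (hRd.analyticOnNhd hU) hpre
    (show (2:ℂ) ∈ {s : ℂ | 0 < s.re} by simp) heq
  have := key hs
  rw [hRF s hs1] at this
  exact this

end Pool.Agent.Helper57.QZ
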